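import Pool.Agent.Helper50.KP.GoalsF

/-!
# Packet KP-MVB (MP_5a63b6_lc)
-/

set_option autoImplicit false

namespace Pool.Agent.Helper62.KP

open Pool.Agent.Helper50.KP

variable {G : Type} [Group G] [Fintype G] [DecidableEq G]

lemma loc_len (K : Kind) (P o : List G) (h : o ∈ loc K P) : o.length = K.o := by
  rcases K with _ | _ | s
  · simp only [loc, Finset.mem_image, Finset.mem_univ, true_and] at h
    obtain ⟨g, rfl⟩ := h
    rfl
  · rcases P with _ | ⟨a, _ | ⟨b, _ | ⟨c, P⟩⟩⟩
    · simp [loc] at h
    · simp [loc] at h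
    · simp only [loc] at h
      split_ifs at h
      · rw [Finset.mem_singleton] at h
        rw [h]; rfl
      · simp at h
    · simp [loc] at h
  · rcases P with _ | ⟨a, _ | ⟨b, _ | ⟨c, P⟩⟩⟩
    · simp [loc] at h
    · simp [loc] at h
    · simp only [loc, Finset.mem_singleton] at h
      rw [h]
      cases s <;> rfl
    · simp [loc] at h

lemma cnt_app (K : Kind) (i : ℕ) (v : Word) (A P R : List G) (hA : A.length = i)
    (hP : P.length = K.i) :
    cnt ((K, i) :: v) (A ++ (P ++ R)) = ∑ o ∈ loc K P, cnt v (A ++ (o ++ R)) := by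
  have h1 : (A ++ (P ++ R)).drop i = P ++ R := by
    rw [← hA, List.drop_left]
  have h2 : (A ++ (P ++ R)).take i = A := by
    rw [← hA, List.take_left]
  have h3 : (A ++ (P ++ R)).drop (i + K.i) = R := by
    rw [← List.drop_drop, h1, ← hP, List.drop_left]
  have h4 : (P ++ R).take K.i = P := by
    rw [← hP, List.take_left]
  simp only [cnt]
  rw [h1, h2, h3, h4]
  apply Finset.sum_congr rfl
  intro o _
  rw [List.append_assoc]

/-- **MVB**. -/
theorem gMVB : Pool.Agent.Helper50.KP.MVB := by
  intro G _ _ _ K K' i d v L k k' h1 h2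
  have hlen : i + K.i + d + K'.i ≤ L.length := by
    simp only [str] at h1
    split_ifs at h1 with ha hb
    omega
  obtain ⟨A, P, B, Q, R, hL, hA, hP, hB, hQ⟩ : ∃ A P B Q R : List G,
      L = A ++ (P ++ (B ++ (Q ++ R))) ∧ A.length = i ∧ P.length = K.i ∧ B.length = d ∧
        Q.length = K'.i := by
    refine ⟨L.take i, (L.drop i).take K.i, (L.drop (i + K.i)).take d,
      (L.drop (i + K.i + d)).take K'.i, L.drop (i + K.i + d + K'.i), ?_, ?_, ?_, ?_, ?_⟩
    · rw [← List.drop_drop (i := K'.i) (j := i + K.i + d), List.take_append_drop,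
        ← List.drop_drop (i := d) (j := i + K.i), List.take_append_drop,
        ← List.drop_drop (i := K.i) (j := i), List.take_append_drop, List.take_append_drop]
    · rw [List.length_take]; omega
    · rw [List.length_take, List.length_drop]; omega
    · rw [List.length_take, List.length_drop]; omega
    · rw [List.length_take, List.length_drop]; omega
  subst hL
  show cnt ((K, i) :: (K', i + K.o + d) :: v) _ = cnt ((K', i + K.i + d) :: (K, i) :: v) _
  rw [cnt_app K i _ A P _ hA hP]
  have e1 : ∀ o ∈ loc K P, cnt ((K', i + K.o + d) :: v) (A ++ (o ++ (B ++ (Q ++ R)))) =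
      ∑ o' ∈ loc K' Q, cnt v (A ++ (o ++ (B ++ (o' ++ R)))) := by
    intro o ho
    have ho' := loc_len K P o ho
    have e2 : A ++ (o ++ (B ++ (Q ++ R))) = (A ++ (o ++ B)) ++ (Q ++ R) := by
      simp only [List.append_assoc]
    rw [e2, cnt_app K' (i + K.o + d) v (A ++ (o ++ B)) Q R
      (by rw [List.length_append, List.length_append, hA, ho', hB]; omega) hQ]
    apply Finset.sum_congr rfl
    intro o' _
    simp only [List.append_assoc]
  rw [Finset.sum_congr rfl e1]
  have e3 : A ++ (P ++ (B ++ (Q ++ R))) = (A ++ (P ++ B)) ++ (Q ++ R) := by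
    simp only [List.append_assoc]
  rw [e3, cnt_app K' (i + K.i + d) _ (A ++ (P ++ B)) Q R
    (by rw [List.length_append, List.length_append, hA, hP, hB]; omega) hQ, Finset.sum_comm]
  apply Finset.sum_congr rfl
  intro o' _
  have e4 : A ++ (P ++ B) ++ (o' ++ R) = A ++ (P ++ (B ++ (o' ++ R))) := by
    simp only [List.append_assoc]
  rw [e4, cnt_app K i v A P _ hA hP]

end Pool.Agent.Helper62.KP
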